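import Pool.Agent.K1H57.HT.Planes
import Mathlib.Algebra.Polynomial.Coeff
import Mathlib.Algebra.Polynomial.Eval.Defs

/-!
# The functional vanishes on derivatives
-/

set_option autoImplicit false

namespace Pool.Agent.K1H57.HC

open Pool.Agent.Y195.HF Pool.Agent.K1H57.HT Finset Polynomial

variable {m : ℕ}

/-- `y'` is the derivative of `y` along the unipotent one-parameter subgroup -/
def Dv (y y' : Zc (I2 m → ℂ)) : Prop :=
  ∃ p : Polynomial (Zc (I2 m → ℂ)),
    (∀ t : ℂ, ExteriorAlgebra.map (act m 1 t 0 1) (zval y) =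
      zval (p.eval (algebraMap ℂ (Zc (I2 m → ℂ)) t))) ∧ p.coeff 0 = y ∧ p.coeff 1 = y'

theorem Dv.mul {y y' z z' : Zc (I2 m → ℂ)} (hy : Dv y y') (hz : Dv z z') :
    Dv (y * z) (y' * z + y * z') := by
  obtain ⟨p, h1, h2, h3⟩ := hy
  obtain ⟨q, g1, g2, g3⟩ := hz
  refine ⟨p * q, fun t => ?_, ?_, ?_⟩
  · rw [map_mul, map_mul, h1 t, g1 t, ← map_mul, eval_mul]
  · rw [mul_coeff_zero, h2, g2]
  · rw [mul_coeff_one, h2, h3, g2, g3]
    ring

theorem Dv.apply {y y' : Zc (I2 m → ℂ)} (hy : Dv y y') {T : Zc (I2 m → ℂ)} (hT : Inv T) :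
    LF m (zval (y' * T)) = 0 := by
  obtain ⟨p, h1, h2, h3⟩ := hy
  have hd : ∀ t : ℂ, (1 : ℂ) * 1 - t * 0 = 1 := fun t => by ring
  -- the polynomial of values
  set q : Polynomial ℂ := ∑ k ∈ range (p.natDegree + 1), monomial k (LF m (zval (p.coeff k * T)))
    with hq
  have hqe : ∀ t : ℂ, q.eval t = LF m (zval (y * T)) := by
    intro t
    have e1 := LF_act (m := m) (hd t) (zval (y * T))
    have e0 : ExteriorAlgebra.map (act m 1 t 0 1) (zval (y * T)) =
        zval (p.eval (algebraMap ℂ (Zc (I2 m → ℂ)) t) * T) := by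
      rw [map_mul, map_mul, h1 t, hT _ _ _ _ (hd t), ← map_mul]
    rw [e0] at e1
    rw [← e1, hq, eval_finsetSum, eval_eq_sum_range, Finset.sum_mul, map_sum, map_sum]
    refine Finset.sum_congr rfl fun k _ => ?_
    rw [eval_monomial]
    have e2 : p.coeff k * (algebraMap ℂ (Zc (I2 m → ℂ))) t ^ k * T = (t ^ k) • (p.coeff k * T) := by
      rw [Algebra.smul_def, map_pow]; ring
    rw [e2, map_smul, map_smul, smul_eq_mul]
    ring
  have hqc : q = Polynomial.C (LF m (zval (y * T))) := by
    apply Polynomial.funext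
    intro t
    rw [hqe, eval_C]
  have h4 : q.coeff 1 = 0 := by
    rw [hqc, coeff_C]
    simp
  have h5 : q.coeff 1 = LF m (zval (p.coeff 1 * T)) := by
    rw [hq, finsetSum_coeff]
    simp only [coeff_monomial]
    by_cases hdeg : 1 ∈ range (p.natDegree + 1)
    · rw [Finset.sum_eq_single 1]
      · simp
      · intro k _ hk
        rw [if_neg hk]
      · intro h; exact absurd hdeg h
    · rw [Finset.sum_eq_zero]
      · have : p.coeff 1 = 0 := by
          apply coeff_eq_zero_of_natDegree_lt
          rw [Finset.mem_range] at hdeg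
          omega
        rw [this, zero_mul, map_zero, map_zero]
      · intro k hk
        rw [if_neg]
        rintro rfl
        exact hdeg hk
  rw [← h3, ← h5, h4]

section base

variable {A : Mt m} (hA : ∀ i j, A j i = - A i j)
include hA

theorem dv_psi : Dv (ff false false A) (2 * ff false true A) := by
  refine ⟨C (ff false false A) + C (2 * ff false true A) * X + C (ff true true A) * X ^ 2,
    fun t => ?_, ?_, ?_⟩
  · rw [map_pp _ _ _ _ hA]
    congr 1
    simp only [eval_add, eval_mul, eval_C, eval_X, eval_pow, Algebra.smul_def, map_one, map_mul,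
      map_ofNat, one_pow, eval_ofNat, map_pow]
    ring
  · simp [coeff_X_pow]
  · simp [coeff_X_pow]

theorem dv_x : Dv (ff false true A) (ff true true A) := by
  refine ⟨C (ff false true A) + C (ff true true A) * X, fun t => ?_, ?_, ?_⟩
  · rw [map_pc _ _ _ _ hA]
    congr 1
    simp only [eval_add, eval_mul, eval_C, eval_X, Algebra.smul_def, map_one, map_mul,
      map_zero, map_add, mul_zero, mul_one, zero_mul, one_mul, add_zero, zero_add]
    ring
  · simp
  · simp

theorem dv_chi : Dv (ff true true A) 0 := by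
  refine ⟨C (ff true true A), fun t => ?_, ?_, ?_⟩
  · rw [map_cc _ _ _ _ hA]
    congr 1
    simp only [eval_C, Algebra.smul_def, map_one, map_mul, map_zero, mul_zero, zero_mul, one_mul,
      zero_add, one_pow, ne_eq, OfNat.ofNat_ne_zero, not_false_eq_true, zero_pow]
  · simp
  · simp [coeff_C]

end base

/-- The product of two invariants. -/
theorem LF_qq {A B : Mt m} (hA : ∀ i j, A j i = - A i j) (hB : ∀ i j, B j i = - B i j)
    {T : Zc (I2 m → ℂ)} (hT : Inv T) :
    LF m (zval (qi A * qi B * T)) =
      (9 / 4 : ℂ) * LF m (zval (ff false false A * ff false false B *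
        (ff true true A * ff true true B) * T)) -
      (3 / 8 : ℂ) * LF m (zval (ff false false B * ff false false B *
        (ff true true A * ff true true A) * T)) := by
  have dA := dv_psi hA
  have xA := dv_x hA
  have cA := dv_chi hA
  have dB := dv_psi hB
  have xB := dv_x hB
  have cB := dv_chi hB
  have r2 := (((dA.mul dB).mul xA).mul cB).apply hT
  have r2' := (((dA.mul dB).mul cA).mul xB).apply hT
  have r3 := (((dA.mul dA).mul xB).mul cB).apply hT
  have r3' := (((dB.mul dB).mul xA).mul cA).apply hT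
  have r4 := (((dA.mul xA).mul xB).mul xB).apply hT
  unfold qi
  generalize ff false false A = a at *
  generalize ff false true A = x at *
  generalize ff true true A = c at *
  generalize ff false false B = b at *
  generalize ff false true B = y at *
  generalize ff true true B = d at *
  set L : Zc (I2 m → ℂ) →ₗ[ℂ] ℂ := (LF m) ∘ₗ (zval (M := I2 m → ℂ)).toLinearMap with hL
  have hLa : ∀ z, LF m (zval z) = L z := fun z => rfl
  simp only [hLa] at *
  have s : ∀ (k : ℕ) (z : Zc (I2 m → ℂ)), L ((k : Zc (I2 m → ℂ)) * z) = (k : ℂ) * L z := by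
    intro k z
    have : (k : Zc (I2 m → ℂ)) * z = (k : ℂ) • z := by
      rw [Algebra.smul_def, map_natCast]
    rw [this, map_smul, smul_eq_mul]
  have e2 : (((2 * x * b + a * (2 * y)) * x + a * b * c) * d + a * b * x * 0) * T =
      (2 : ℕ) * (x * x * b * d * T) + (2 : ℕ) * (a * x * y * d * T) + a * b * (c * d) * T := by
    push_cast; ring
  have e2' : (((2 * x * b + a * (2 * y)) * c + a * b * 0) * y + a * b * c * d) * T =
      (2 : ℕ) * (b * x * y * c * T) + (2 : ℕ) * (a * c * y * y * T) + a * b * (c * d) * T := by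
    push_cast; ring
  have e3 : (((2 * x * a + a * (2 * x)) * y + a * a * d) * d + a * a * y * 0) * T =
      (4 : ℕ) * (a * x * y * d * T) + a * a * (d * d) * T := by
    push_cast; ring
  have e3' : (((2 * y * b + b * (2 * y)) * x + b * b * c) * c + b * b * x * 0) * T =
      (4 : ℕ) * (b * x * y * c * T) + b * b * (c * c) * T := by
    push_cast; ring
  have e4 : (((2 * x * x + a * c) * y + a * x * d) * y + a * x * y * d) * T =
      (2 : ℕ) * (x * x * y * y * T) + a * c * y * y * T + (2 : ℕ) * (a * x * y * d * T) := by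
    push_cast; ring
  have e5 : (a * c - x ^ 2) * (b * d - y ^ 2) * T = a * b * (c * d) * T - a * c * y * y * T -
      x * x * b * d * T + x * x * y * y * T := by ring
  rw [e2, map_add, map_add, s, s] at r2
  rw [e2', map_add, map_add, s, s] at r2'
  rw [e3, map_add, s] at r3
  rw [e3', map_add, s] at r3'
  rw [e4, map_add, map_add, s, s] at r4
  rw [e5, map_add, map_sub, map_sub]
  push_cast at *
  linear_combination (-1 / 2 : ℂ) * r2 - (3 / 4 : ℂ) * r2' + (1 / 2 : ℂ) * r4 +
    (3 / 8 : ℂ) * r3'

end Pool.Agent.K1H57.HC
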