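import Pool.Agent.K1H57.HC.Pos

/-!
# Four planes
-/

set_option autoImplicit false

namespace Pool.Agent.K1H57.HC

open Pool.Agent.Y195.HF Pool.Agent.K1H57.HT Finset

variable {m : ℕ}

section ring

variable {R : Type} [CommRing R]

theorem two_pow {a b : R} (ha : a * a * a = 0) (hb : b * b * b = 0) :
    (a + b) ^ 2 = a * a + 2 * (a * b) + b * b ∧ (a + b) ^ 3 = 3 * (a * a * b) + 3 * (a * b * b) ∧
    (a + b) ^ 4 = 6 * (a * a * (b * b)) ∧ (a + b) ^ 5 = 0 := by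
  refine ⟨by ring, ?_, ?_, ?_⟩
  · linear_combination ha + hb
  · linear_combination (a + 4 * b) * ha + (b + 4 * a) * hb
  · linear_combination (a ^ 2 + 5 * a * b + 10 * b ^ 2) * ha + (b ^ 2 + 5 * a * b + 10 * a ^ 2) * hb

theorem four_six {a b c d : R} (ha : a * a * a = 0) (hb : b * b * b = 0) (hc : c * c * c = 0)
    (hd : d * d * d = 0) :
    (a + b + c + d) ^ 6 = 90 * (a * a * (b * b) * (c * c) + a * a * (b * b) * (d * d) +
      a * a * (c * c) * (d * d) + b * b * (c * c) * (d * d)) +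
      180 * (a * a * (b * b) * (c * d) + a * a * (c * c) * (b * d) + a * a * (d * d) * (b * c) +
        b * b * (c * c) * (a * d) + b * b * (d * d) * (a * c) + c * c * (d * d) * (a * b)) := by
  obtain ⟨p2, p3, p4, p5⟩ := two_pow ha hb
  obtain ⟨q2, q3, q4, q5⟩ := two_pow hc hd
  have e : (a + b + c + d) ^ 6 = 15 * ((a + b) ^ 2 * (c + d) ^ 4) +
      20 * ((a + b) ^ 3 * (c + d) ^ 3) + 15 * ((a + b) ^ 4 * (c + d) ^ 2) := by
    linear_combination ((a + b) + 6 * (c + d)) * p5 + ((c + d) + 6 * (a + b)) * q5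
  rw [e, p2, p3, p4, q2, q3, q4]
  ring

theorem four_eight {a b c d : R} (ha : a * a * a = 0) (hb : b * b * b = 0) (hc : c * c * c = 0)
    (hd : d * d * d = 0) :
    (a + b + c + d) ^ 8 = 2520 * (a * a * (b * b) * (c * c) * (d * d)) ∧
      (a + b + c + d) ^ 9 = 0 := by
  obtain ⟨p2, p3, p4, p5⟩ := two_pow ha hb
  obtain ⟨q2, q3, q4, q5⟩ := two_pow hc hd
  constructor
  · have e : (a + b + c + d) ^ 8 = 70 * ((a + b) ^ 4 * (c + d) ^ 4) := by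
      linear_combination ((a + b) ^ 3 + 8 * (a + b) ^ 2 * (c + d) + 28 * (a + b) * (c + d) ^ 2 +
        56 * (c + d) ^ 3) * p5 + ((c + d) ^ 3 + 8 * (c + d) ^ 2 * (a + b) +
        28 * (c + d) * (a + b) ^ 2 + 56 * (a + b) ^ 3) * q5
    rw [e, p4, q4]
    ring
  · linear_combination ((a + b) ^ 4 + 9 * (a + b) ^ 3 * (c + d) + 36 * (a + b) ^ 2 * (c + d) ^ 2 +
        84 * (a + b) * (c + d) ^ 3 + 126 * (c + d) ^ 4) * p5 + ((c + d) ^ 4 +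
        9 * (c + d) ^ 3 * (a + b) + 36 * (c + d) ^ 2 * (a + b) ^ 2 +
        84 * (c + d) * (a + b) ^ 3 + 126 * (a + b) ^ 4) * q5

end ring

/-- positive semidefinite quadratic forms in four variables -/
def Psd4 (A₀ A₁ A₂ A₃ C₀₁ C₀₂ C₀₃ C₁₂ C₁₃ C₂₃ : ℝ) : Prop := ∀ z₀ z₁ z₂ z₃ : ℝ,
  0 ≤ A₀ * z₀ ^ 2 + A₁ * z₁ ^ 2 + A₂ * z₂ ^ 2 + A₃ * z₃ ^ 2 + 2 * C₀₁ * (z₀ * z₁) +
    2 * C₀₂ * (z₀ * z₂) + 2 * C₀₃ * (z₀ * z₃) + 2 * C₁₂ * (z₁ * z₂) + 2 * C₁₃ * (z₁ * z₃) +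
    2 * C₂₃ * (z₂ * z₃)

/-- inner product with itself -/
theorem n2_nonneg (h : Fin 3 → ℝ) : 0 ≤ n2 h := by unfold n2; positivity

theorem n2_zero {h : Fin 3 → ℝ} (h0 : n2 h = 0) : h 0 = 0 ∧ h 1 = 0 ∧ h 2 = 0 := by
  unfold n2 at h0
  refine ⟨?_, ?_, ?_⟩ <;> nlinarith [sq_nonneg (h 0), sq_nonneg (h 1), sq_nonneg (h 2)]

/-- pairing of the matrix with the inversions of four vectors -/
theorem Psd4.pair {A₀ A₁ A₂ A₃ C₀₁ C₀₂ C₀₃ C₁₂ C₁₃ C₂₃ : ℝ}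
    (h : Psd4 A₀ A₁ A₂ A₃ C₀₁ C₀₂ C₀₃ C₁₂ C₁₃ C₂₃) (k₀ k₁ k₂ k₃ : Fin 3 → ℝ) :
    0 ≤ A₀ * (n2 k₁ * n2 k₂ * n2 k₃) + A₁ * (n2 k₀ * n2 k₂ * n2 k₃) +
      A₂ * (n2 k₀ * n2 k₁ * n2 k₃) + A₃ * (n2 k₀ * n2 k₁ * n2 k₂) +
      2 * C₀₁ * (n2 k₂ * n2 k₃ * ip k₀ k₁) + 2 * C₀₂ * (n2 k₁ * n2 k₃ * ip k₀ k₂) +
      2 * C₀₃ * (n2 k₁ * n2 k₂ * ip k₀ k₃) + 2 * C₁₂ * (n2 k₀ * n2 k₃ * ip k₁ k₂) +
      2 * C₁₃ * (n2 k₀ * n2 k₂ * ip k₁ k₃) + 2 * C₂₃ * (n2 k₀ * n2 k₁ * ip k₂ k₃) := by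
  have a0 : 0 ≤ A₀ := by have := h 1 0 0 0; linarith
  have a1 : 0 ≤ A₁ := by have := h 0 1 0 0; linarith
  have a2 : 0 ≤ A₂ := by have := h 0 0 1 0; linarith
  have a3 : 0 ≤ A₃ := by have := h 0 0 0 1; linarith
  have p0 := n2_nonneg k₀
  have p1 := n2_nonneg k₁
  have p2 := n2_nonneg k₂
  have p3 := n2_nonneg k₃
  rcases p0.eq_or_lt with z | z0
  · obtain ⟨x, y, w⟩ := n2_zero z.symm
    have e1 : ip k₀ k₁ = 0 := by unfold ip; rw [x, y, w]; ring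
    have e2 : ip k₀ k₂ = 0 := by unfold ip; rw [x, y, w]; ring
    have e3 : ip k₀ k₃ = 0 := by unfold ip; rw [x, y, w]; ring
    rw [← z, e1, e2, e3]
    have : 0 ≤ A₀ * (n2 k₁ * n2 k₂ * n2 k₃) := by positivity
    linarith
  rcases p1.eq_or_lt with z | z1
  · obtain ⟨x, y, w⟩ := n2_zero z.symm
    have e1 : ip k₀ k₁ = 0 := by unfold ip; rw [x, y, w]; ring
    have e2 : ip k₁ k₂ = 0 := by unfold ip; rw [x, y, w]; ring
    have e3 : ip k₁ k₃ = 0 := by unfold ip; rw [x, y, w]; ring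
    rw [← z, e1, e2, e3]
    have : 0 ≤ A₁ * (n2 k₀ * n2 k₂ * n2 k₃) := by positivity
    linarith
  rcases p2.eq_or_lt with z | z2
  · obtain ⟨x, y, w⟩ := n2_zero z.symm
    have e1 : ip k₀ k₂ = 0 := by unfold ip; rw [x, y, w]; ring
    have e2 : ip k₁ k₂ = 0 := by unfold ip; rw [x, y, w]; ring
    have e3 : ip k₂ k₃ = 0 := by unfold ip; rw [x, y, w]; ring
    rw [← z, e1, e2, e3]
    have : 0 ≤ A₂ * (n2 k₀ * n2 k₁ * n2 k₃) := by positivity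
    linarith
  rcases p3.eq_or_lt with z | z3
  · obtain ⟨x, y, w⟩ := n2_zero z.symm
    have e1 : ip k₀ k₃ = 0 := by unfold ip; rw [x, y, w]; ring
    have e2 : ip k₁ k₃ = 0 := by unfold ip; rw [x, y, w]; ring
    have e3 : ip k₂ k₃ = 0 := by unfold ip; rw [x, y, w]; ring
    rw [← z, e1, e2, e3]
    have : 0 ≤ A₃ * (n2 k₀ * n2 k₁ * n2 k₂) := by positivity
    linarith
  have hc : ∀ c : Fin 3, _ := fun c => h (k₀ c * (n2 k₁ * n2 k₂ * n2 k₃))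
    (k₁ c * (n2 k₀ * n2 k₂ * n2 k₃)) (k₂ c * (n2 k₀ * n2 k₁ * n2 k₃))
    (k₃ c * (n2 k₀ * n2 k₁ * n2 k₂))
  have s := add_nonneg (add_nonneg (hc 0) (hc 1)) (hc 2)
  have hpos : 0 < n2 k₀ * n2 k₁ * n2 k₂ * n2 k₃ := by positivity
  refine nonneg_of_mul_nonneg_right (le_of_le_of_eq s ?_) hpos
  have f0 : k₀ 0 ^ 2 + k₀ 1 ^ 2 + k₀ 2 ^ 2 = n2 k₀ := rfl
  have f1 : k₁ 0 ^ 2 + k₁ 1 ^ 2 + k₁ 2 ^ 2 = n2 k₁ := rfl
  have f2 : k₂ 0 ^ 2 + k₂ 1 ^ 2 + k₂ 2 ^ 2 = n2 k₂ := rfl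
  have f3 : k₃ 0 ^ 2 + k₃ 1 ^ 2 + k₃ 2 ^ 2 = n2 k₃ := rfl
  unfold ip
  generalize n2 k₀ = x₀ at *
  generalize n2 k₁ = x₁ at *
  generalize n2 k₂ = x₂ at *
  generalize n2 k₃ = x₃ at *
  linear_combination (A₀ * (x₁ * x₂ * x₃) ^ 2) * f0 + (A₁ * (x₀ * x₂ * x₃) ^ 2) * f1 +
    (A₂ * (x₀ * x₁ * x₃) ^ 2) * f2 + (A₃ * (x₀ * x₁ * x₂) ^ 2) * f3

/-- matrix of order three of the functional -/
theorem psd4 (i j k l : Fin m) {T : Zc (I2 m → ℂ)} {n : ℕ} (hc : T ∈ cone m n)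
    (hn : 3 + n = m) :
    Psd4 (LR m (vP j * vP k * vP l * T)) (LR m (vP i * vP k * vP l * T))
      (LR m (vP i * vP j * vP l * T)) (LR m (vP i * vP j * vP k * T))
      (cV i j (vP k * vP l * T)) (cV i k (vP j * vP l * T)) (cV i l (vP j * vP k * T))
      (cV j k (vP i * vP l * T)) (cV j l (vP i * vP k * T)) (cV k l (vP i * vP j * T)) := by
  intro z₀ z₁ z₂ z₃
  have h := gram (κ := Fin 4) (k := 3)
    (fun a b => eP (![![j, k, l], ![i, k, l], ![i, j, l], ![i, j, k]] a b))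
    (fun a b => cj_sk _ _) ![z₀, z₁, z₂, z₃] hc hn
  simp only [Fin.prod_univ_three, Fin.sum_univ_four, ff_ff, ff_tt, Matrix.cons_val_zero,
    Matrix.cons_val_one, Matrix.cons_val_two, Matrix.cons_val_three, Matrix.head_cons,
    Matrix.tail_cons] at h
  have e : (z₀ • (2 * pP j * (2 * pP k) * (2 * pP l)) + z₁ • (2 * pP i * (2 * pP k) * (2 * pP l)) +
        z₂ • (2 * pP i * (2 * pP j) * (2 * pP l)) + z₃ • (2 * pP i * (2 * pP j) * (2 * pP k))) *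
      (z₀ • (2 * cP j * (2 * cP k) * (2 * cP l)) + z₁ • (2 * cP i * (2 * cP k) * (2 * cP l)) +
        z₂ • (2 * cP i * (2 * cP j) * (2 * cP l)) + z₃ • (2 * cP i * (2 * cP j) * (2 * cP k))) * T =
      (64 * z₀ ^ 2) • (vP j * vP k * vP l * T) + (64 * z₁ ^ 2) • (vP i * vP k * vP l * T) +
      (64 * z₂ ^ 2) • (vP i * vP j * vP l * T) + (64 * z₃ ^ 2) • (vP i * vP j * vP k * T) +
      (64 * (z₀ * z₁)) • ((pP i * cP j + cP i * pP j) * (vP k * vP l * T)) +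
      (64 * (z₀ * z₂)) • ((pP i * cP k + cP i * pP k) * (vP j * vP l * T)) +
      (64 * (z₀ * z₃)) • ((pP i * cP l + cP i * pP l) * (vP j * vP k * T)) +
      (64 * (z₁ * z₂)) • ((pP j * cP k + cP j * pP k) * (vP i * vP l * T)) +
      (64 * (z₁ * z₃)) • ((pP j * cP l + cP j * pP l) * (vP i * vP k * T)) +
      (64 * (z₂ * z₃)) • ((pP k * cP l + cP k * pP l) * (vP i * vP j * T)) := by
    simp only [Algebra.smul_def, map_mul, map_pow, map_ofNat, vP]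
    ring
  rw [e] at h
  simp only [map_add, map_smul, smul_eq_mul] at h
  simp only [cV] at h ⊢
  linarith

theorem ry (x : ℝ) (z : Zc (I2 m → ℂ)) : LR m (rS m x * z) = x * LR m z := LR_rS x z

/-- third order, pointwise -/
theorem six_pos (h₀ h₁ h₂ h₃ : Fin 3 → ℝ) (i j k l : Fin m) {T : Zc (I2 m → ℂ)} (hT : Inv T)
    {n : ℕ} (hc : T ∈ cone m n) (hn : 3 + n = m) :
    0 ≤ LR m ((yP h₀ i + yP h₁ j + yP h₂ k + yP h₃ l) ^ 6 * T) := by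
  rw [four_six (yP_cube h₀ i) (yP_cube h₁ j) (yP_cube h₂ k) (yP_cube h₃ l)]
  have e : (90 * (yP h₀ i * yP h₀ i * (yP h₁ j * yP h₁ j) * (yP h₂ k * yP h₂ k) +
      yP h₀ i * yP h₀ i * (yP h₁ j * yP h₁ j) * (yP h₃ l * yP h₃ l) +
      yP h₀ i * yP h₀ i * (yP h₂ k * yP h₂ k) * (yP h₃ l * yP h₃ l) +
      yP h₁ j * yP h₁ j * (yP h₂ k * yP h₂ k) * (yP h₃ l * yP h₃ l)) +
      180 * (yP h₀ i * yP h₀ i * (yP h₁ j * yP h₁ j) * (yP h₂ k * yP h₃ l) +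
        yP h₀ i * yP h₀ i * (yP h₂ k * yP h₂ k) * (yP h₁ j * yP h₃ l) +
        yP h₀ i * yP h₀ i * (yP h₃ l * yP h₃ l) * (yP h₁ j * yP h₂ k) +
        yP h₁ j * yP h₁ j * (yP h₂ k * yP h₂ k) * (yP h₀ i * yP h₃ l) +
        yP h₁ j * yP h₁ j * (yP h₃ l * yP h₃ l) * (yP h₀ i * yP h₂ k) +
        yP h₂ k * yP h₂ k * (yP h₃ l * yP h₃ l) * (yP h₀ i * yP h₁ j))) * T =
      rS m (720 * (n2 h₀ * n2 h₁ * n2 h₂)) * (vP i * vP j * vP k * T) +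
      rS m (720 * (n2 h₀ * n2 h₁ * n2 h₃)) * (vP i * vP j * vP l * T) +
      rS m (720 * (n2 h₀ * n2 h₂ * n2 h₃)) * (vP i * vP k * vP l * T) +
      rS m (720 * (n2 h₁ * n2 h₂ * n2 h₃)) * (vP j * vP k * vP l * T) +
      rS m (720 * (n2 h₀ * n2 h₁)) * (yP h₂ k * yP h₃ l * (vP i * vP j * T)) +
      rS m (720 * (n2 h₀ * n2 h₂)) * (yP h₁ j * yP h₃ l * (vP i * vP k * T)) +
      rS m (720 * (n2 h₀ * n2 h₃)) * (yP h₁ j * yP h₂ k * (vP i * vP l * T)) +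
      rS m (720 * (n2 h₁ * n2 h₂)) * (yP h₀ i * yP h₃ l * (vP j * vP l * 0 + vP j * vP k * T)) +
      rS m (720 * (n2 h₁ * n2 h₃)) * (yP h₀ i * yP h₂ k * (vP j * vP l * T)) +
      rS m (720 * (n2 h₂ * n2 h₃)) * (yP h₀ i * yP h₁ j * (vP k * vP l * T)) := by
    rw [yP_sq, yP_sq, yP_sq, yP_sq]
    simp only [rS, map_mul, map_ofNat]
    ring
  rw [e, mul_zero, zero_add]
  have v : ∀ a b : Fin m, Inv (vP a * vP b * T) := fun a b => ((vP_inv a).mul (vP_inv b)).mul hT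
  simp only [map_add, ry]
  rw [LR_yy _ _ (v i j), LR_yy _ _ (v i k), LR_yy _ _ (v i l), LR_yy _ _ (v j k),
    LR_yy _ _ (v j l), LR_yy _ _ (v k l)]
  have h := (psd4 i j k l hc hn).pair h₀ h₁ h₂ h₃
  linarith

theorem eight_pos (h₀ h₁ h₂ h₃ : Fin 3 → ℝ) (i j k l : Fin m) {T : Zc (I2 m → ℂ)}
    {n : ℕ} (hc : T ∈ cone m n) (hn : 4 + n = m) :
    0 ≤ LR m ((yP h₀ i + yP h₁ j + yP h₂ k + yP h₃ l) ^ 8 * T) := by
  rw [(four_eight (yP_cube h₀ i) (yP_cube h₁ j) (yP_cube h₂ k) (yP_cube h₃ l)).1]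
  have e : 2520 * (yP h₀ i * yP h₀ i * (yP h₁ j * yP h₁ j) * (yP h₂ k * yP h₂ k) *
      (yP h₃ l * yP h₃ l)) * T = rS m (2520 * 16 * (n2 h₀ * n2 h₁ * n2 h₂ * n2 h₃)) *
        (vP i * vP j * vP k * vP l * T) := by
    rw [yP_sq, yP_sq, yP_sq, yP_sq]
    simp only [rS, map_mul, map_ofNat]
    ring
  rw [e, ry]
  have p0 := n2_nonneg h₀
  have p1 := n2_nonneg h₁
  have p2 := n2_nonneg h₂
  have p3 := n2_nonneg h₃
  refine mul_nonneg (by positivity) (cone_LR ?_)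
  have := cone_mul (cone_mul (cone_mul (cone_mul (vP_cone i) (vP_cone j)) (vP_cone k))
    (vP_cone l)) hc
  have e3 : 1 + 1 + 1 + 1 + n = m := by omega
  rwa [e3] at this

/-- a form with four planes -/
noncomputable def fA (a : Fin 4 → ℝ) (ι : Fin 4 → Fin m) : Mt m :=
  (a 0 : ℂ) • eP (ι 0) + (a 1 : ℂ) • eP (ι 1) + (a 2 : ℂ) • eP (ι 2) + (a 3 : ℂ) • eP (ι 3)

theorem fA_anti (a : Fin 4 → ℝ) (ι : Fin 4 → Fin m) (i j : Fin m × Bool) :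
    fA a ι j i = - fA a ι i j := by
  have e := fun b => sk_anti (m := m) (b, false) (b, true) i j
  simp only [fA, Pi.add_apply, Pi.smul_apply, smul_eq_mul]
  unfold eP
  rw [e, e, e, e]
  ring

theorem fA_real (a : Fin 4 → ℝ) (ι : Fin 4 → Fin m) : cj (fA a ι) = fA a ι := by
  have e := fun b => cj_sk (m := m) (b, false) (b, true)
  funext i j
  have f := fun b => congrFun (congrFun (e b) i) j
  simp only [cj] at f
  simp only [cj, fA, eP, Pi.add_apply, Pi.smul_apply, smul_eq_mul, map_add, map_mul, f,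
    Complex.conj_ofReal]

theorem ff_fA (s t : Bool) (a : Fin 4 → ℝ) (ι : Fin 4 → Fin m) : ff s t (fA a ι) =
    (a 0 : ℂ) • ff s t (eP (ι 0)) + (a 1 : ℂ) • ff s t (eP (ι 1)) +
    (a 2 : ℂ) • ff s t (eP (ι 2)) + (a 3 : ℂ) • ff s t (eP (ι 3)) := by
  unfold fA
  rw [ff_add, ff_add, ff_add, ff_smul, ff_smul, ff_smul, ff_smul]

/-- the element of a combination -/
theorem vv_fA {r : ℕ} (a : Fin r → Fin 4 → ℝ) (ι : Fin 4 → Fin m) (ξ : Fin r → Fin 3 → ℝ) :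
    ∑ s, vv (ξ s 0) (ξ s 1) (ξ s 2) (fA (a s) ι) =
      yP (fun c => ∑ s, a s 0 * ξ s c) (ι 0) + yP (fun c => ∑ s, a s 1 * ξ s c) (ι 1) +
      yP (fun c => ∑ s, a s 2 * ξ s c) (ι 2) + yP (fun c => ∑ s, a s 3 * ξ s c) (ι 3) := by
  have key : ∀ (w : Fin r → ℝ) (i : Fin m), yP (fun c => ∑ s, w s * ξ s c) i =
      ∑ s, (w s : ℂ) • vv (ξ s 0) (ξ s 1) (ξ s 2) (eP i) := by
    intro w i
    have c1 : ((((∑ s, w s * ξ s 0 : ℝ)) : ℂ) + Complex.I * ((∑ s, w s * ξ s 1 : ℝ) : ℂ)) / 2 =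
        ∑ s, (w s : ℂ) * (((ξ s 0 : ℂ) + Complex.I * (ξ s 1 : ℂ)) / 2) := by
      push_cast
      rw [Finset.mul_sum, ← Finset.sum_add_distrib, Finset.sum_div]
      exact Finset.sum_congr rfl fun s _ => by ring
    have c2 : ((((∑ s, w s * ξ s 0 : ℝ)) : ℂ) - Complex.I * ((∑ s, w s * ξ s 1 : ℝ) : ℂ)) / 2 =
        ∑ s, (w s : ℂ) * (((ξ s 0 : ℂ) - Complex.I * (ξ s 1 : ℂ)) / 2) := by
      push_cast
      rw [Finset.mul_sum, ← Finset.sum_sub_distrib, Finset.sum_div]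
      exact Finset.sum_congr rfl fun s _ => by ring
    have c3 : Complex.I * ((∑ s, w s * ξ s 2 : ℝ) : ℂ) =
        ∑ s, (w s : ℂ) * (Complex.I * (ξ s 2 : ℂ)) := by
      push_cast
      rw [Finset.mul_sum]
      exact Finset.sum_congr rfl fun s _ => by ring
    simp only [yP, vv, uu]
    rw [c1, c2, c3]
    simp only [smul_add, smul_smul, Finset.sum_add_distrib, Finset.sum_smul]
  rw [key, key, key, key, ← Finset.sum_add_distrib, ← Finset.sum_add_distrib,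
    ← Finset.sum_add_distrib]
  refine Finset.sum_congr rfl fun s _ => ?_
  simp only [vv, uu, ff_fA, smul_add, smul_smul]
  simp only [Algebra.smul_def, map_mul]
  ring

/-- **All orders for four planes**: at most six forms. -/
theorem all_pos {r : ℕ} (hr : r ≤ 6) (a : Fin r → Fin 4 → ℝ) (ι : Fin 4 → Fin m)
    {T : Zc (I2 m → ℂ)} (hT : Inv T) {N n : ℕ} (hc : T ∈ cone m n) (hn : N + n = m) :
    0 ≤ LR m ((∑ s, qi (fA (a s) ι)) ^ N * T) := by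
  -- Gaussian representation
  have gs : (∀ h₀ h₁ h₂ h₃ : Fin 3 → ℝ, 0 ≤ LR m ((yP h₀ (ι 0) + yP h₁ (ι 1) + yP h₂ (ι 2) +
      yP h₃ (ι 3)) ^ (2 * N) * T)) → 0 ≤ LR m ((∑ s, qi (fA (a s) ι)) ^ N * T) := by
    intro hpt
    set x : Fin r × Fin 3 → Zc (I2 m → ℂ) := fun p =>
      vv (if p.2 = 0 then 1 else 0) (if p.2 = 1 then 1 else 0) (if p.2 = 2 then 1 else 0)
        (fA (a p.1) ι) with hx
    have h := gauss_pos x T (LR m) N (fun ξ => by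
      have e : ∑ i, ξ i • x i = ∑ s, vv (ξ (s, 0)) (ξ (s, 1)) (ξ (s, 2)) (fA (a s) ι) := by
        rw [Fintype.sum_prod_type]
        refine Finset.sum_congr rfl fun s _ => ?_
        rw [← vv_comb, Fin.sum_univ_three]
        simp [hx]
      rw [e, vv_fA a ι (fun s c => ξ (s, c))]
      exact hpt _ _ _ _)
    have e2 : ∑ i, x i ^ 2 = ∑ s, qi (fA (a s) ι) := by
      rw [Fintype.sum_prod_type]
      refine Finset.sum_congr rfl fun s _ => ?_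
      rw [← vv_sq, Fin.sum_univ_three]
      simp [hx]
    rwa [e2] at h
  rcases N with _ | _ | _ | _ | _ | N
  · rw [pow_zero, one_mul]
    have : n = m := by omega
    subst this
    exact cone_LR hc
  · rw [zero_add, pow_one, Finset.sum_mul, map_sum]
    refine Finset.sum_nonneg fun s _ => ?_
    have h := pos_main (fA_anti (a s) ι) (B := 0) (fun i j => by simp) (fA_real _ _) (by
      funext i j; simp [cj]) hT (N := 1) hc hn
    have e0 : qi (0 : Mt m) = 0 := by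
      have : ∀ s t, ff s t (0 : Mt m) = 0 := by
        intro s t
        simp [ff]
      rw [qi, this, this, this]
      ring
    rw [e0, add_zero, pow_one] at h
    exact h
  · exact pos2 hr (fun s => fA (a s) ι) (fun s => fA_anti _ _) (fun s => fA_real _ _) hT hc
      (by omega)
  · exact gs fun h₀ h₁ h₂ h₃ => six_pos h₀ h₁ h₂ h₃ _ _ _ _ hT hc (by omega)
  · exact gs fun h₀ h₁ h₂ h₃ => eight_pos h₀ h₁ h₂ h₃ _ _ _ _ hc (by omega)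
  · refine gs fun h₀ h₁ h₂ h₃ => ?_
    have h9 := (four_eight (yP_cube h₀ (ι 0)) (yP_cube h₁ (ι 1)) (yP_cube h₂ (ι 2))
      (yP_cube h₃ (ι 3))).2
    rw [show 2 * (N + 1 + 1 + 1 + 1 + 1) = 9 + (2 * N + 1) by ring, pow_add, h9, zero_mul,
      zero_mul, map_zero]

end Pool.Agent.K1H57.HC
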