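import Pool.Agent.K1H57.HC.Four
import Pool.Agent.K1H57.HT.Commute
import Mathlib.Analysis.Matrix.Order

/-!
# Commuting skew operators with an image of dimension at most eight
-/

set_option autoImplicit false

namespace Pool.Agent.K1H57.HC

open Pool.Agent.Y195.HF Pool.Agent.W666.GB Pool.Agent.W669.HD Pool.Agent.K1H57.HT Finset
open scoped MatrixOrder

variable {m : ℕ}

/-- bilinear invariants of two planes -/
noncomputable def zP (i j : Fin m) : Zc (I2 m → ℂ) :=
  ff false false (eP i) * ff true true (eP j) - ff false true (eP i) * ff false true (eP j)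

theorem qi_fA (a : Fin 4 → ℝ) (ι : Fin 4 → Fin m) :
    qi (fA a ι) = ∑ k, ∑ l, ((a k * a l : ℝ) : ℂ) • zP (ι k) (ι l) := by
  simp only [Fin.sum_univ_four, zP, qi, ff_fA, Complex.ofReal_mul]
  simp only [Algebra.smul_def, map_mul]
  ring

/-- reduction to four forms -/
theorem reduce {n : ℕ} (a : Fin n → Fin 4 → ℝ) (ι : Fin 4 → Fin m) :
    ∃ b : Fin 4 → Fin 4 → ℝ, ∑ s, qi (fA (a s) ι) = ∑ t, qi (fA (b t) ι) := by
  set M : Matrix (Fin n) (Fin 4) ℝ := Matrix.of a with hM
  have hG : (M.conjTranspose * M).PosSemidef := Matrix.posSemidef_conjTranspose_mul_self M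
  obtain ⟨B, hB⟩ : ∃ B : Matrix (Fin 4) (Fin 4) ℝ,
      M.conjTranspose * M = B.conjTranspose * B := by
    obtain ⟨B, hB⟩ := CStarAlgebra.nonneg_iff_eq_star_mul_self.mp hG.nonneg
    exact ⟨B, hB⟩
  refine ⟨fun t k => B t k, ?_⟩
  have h1 : ∀ k l, ∑ s, a s k * a s l = ∑ t, B t k * B t l := by
    intro k l
    have := congrFun (congrFun hB k) l
    simpa [Matrix.mul_apply, hM, Matrix.conjTranspose_apply] using this
  have h2 : ∀ (N : ℕ) (c : Fin N → Fin 4 → ℝ), ∑ s, qi (fA (c s) ι) =
      ∑ k, ∑ l, ((∑ s, c s k * c s l : ℝ) : ℂ) • zP (ι k) (ι l) := by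
    intro N c
    simp only [qi_fA]
    rw [Finset.sum_comm]
    refine Finset.sum_congr rfl fun k _ => ?_
    rw [Finset.sum_comm]
    refine Finset.sum_congr rfl fun l _ => ?_
    rw [← Finset.sum_smul]
    push_cast
    rfl
  rw [h2 n a, h2 4 (fun t k => B t k)]
  simp only [h1]

/-- any number of forms with four planes -/
theorem all_pos' {r : ℕ} (a : Fin r → Fin 4 → ℝ) (ι : Fin 4 → Fin m)
    {T : Zc (I2 m → ℂ)} (hT : Inv T) {N n : ℕ} (hc : T ∈ cone m n) (hn : N + n = m) :
    0 ≤ LR m ((∑ s, qi (fA (a s) ι)) ^ N * T) := by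
  obtain ⟨b, hb⟩ := reduce a ι
  rw [hb]
  exact all_pos (by norm_num) b ι hT hc hn

section vector

variable {V : Type} [NormedAddCommGroup V] [InnerProductSpace ℝ V]

/-- Pairwise commuting skew-adjoint operators with images in the subspace `W`. -/
structure CommSkew (W : Submodule ℝ V) {n : ℕ} (a : Fin n → V →ₗ[ℝ] V) : Prop where
  skew : ∀ s x y, (inner ℝ (a s x) y : ℝ) = - inner ℝ x (a s y)
  comm : ∀ s t x, a s (a t x) = a t (a s x)
  mem : ∀ s x, a s x ∈ W

/-- the sum of the curvature tensors of the skew forms of the operators -/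
noncomputable def opCurv {n : ℕ} (a : Fin n → V →ₗ[ℝ] V) (x y z w : V) : ℝ :=
  ∑ s, skewCurv (fun x y => (inner ℝ (a s x) y : ℝ)) x y z w

theorem CommSkew.form {W : Submodule ℝ V} {n : ℕ} {a : Fin n → V →ₗ[ℝ] V} (h : CommSkew W a)
    (s : Fin n) : SkewForm (fun x y => (inner ℝ (a s x) y : ℝ)) where
  add x x' y := by rw [map_add, inner_add_left]
  smul t x y := by rw [map_smul, inner_smul_left]; simp
  anti x y := by rw [h.skew, real_inner_comm]

theorem CommSkew.curv {W : Submodule ℝ V} {n : ℕ} {a : Fin n → V →ₗ[ℝ] V} (h : CommSkew W a) :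
    AlgCurv (opCurv a) := by
  refine ⟨?_, ?_, ?_, ?_, ?_⟩
  · intro x x' y z w
    rw [opCurv, opCurv, opCurv, ← Finset.sum_add_distrib]
    exact Finset.sum_congr rfl fun s _ => (h.form s).curv.add _ _ _ _ _
  · intro t x y z w
    rw [opCurv, opCurv, Finset.mul_sum]
    exact Finset.sum_congr rfl fun s _ => (h.form s).curv.smul _ _ _ _ _
  · intro x y z w
    rw [opCurv, opCurv, ← Finset.sum_neg_distrib]
    exact Finset.sum_congr rfl fun s _ => (h.form s).curv.anti _ _ _ _
  · intro x y z w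
    exact Finset.sum_congr rfl fun s _ => (h.form s).curv.pair _ _ _ _
  · intro x y z w
    rw [opCurv, opCurv, opCurv, ← Finset.sum_add_distrib, ← Finset.sum_add_distrib]
    exact Finset.sum_eq_zero fun s _ => (h.form s).curv.bianchi _ _ _ _

/-- adapted basis and coefficients -/
theorem coeffs (e : OrthonormalBasis (Fin m × Bool) ℝ V) (hm : 1 ≤ m) {W : Submodule ℝ V}
    (hW : Module.finrank ℝ W ≤ 8) {n : ℕ} {a : Fin n → V →ₗ[ℝ] V} (h : CommSkew W a) :
    ∃ (e' : OrthonormalBasis (Fin m × Bool) ℝ V) (ι : Fin 4 → Fin m) (α : Fin n → Fin 4 → ℝ),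
      ∀ s, cm (fun i j => (inner ℝ (a s (e' i)) (e' j) : ℝ)) = fA (α s) ι := by
  classical
  haveI : FiniteDimensional ℝ V := Module.Basis.finiteDimensional_of_finite e.toBasis
  have hfin : Module.finrank ℝ V = 2 * m := by
    rw [Module.finrank_eq_card_basis e.toBasis]
    simp only [Fintype.card_prod, Fintype.card_fin, Fintype.card_bool]
    ring
  obtain ⟨u, hu, hc⟩ := blocks m V (Fin n) a hfin h.skew h.comm
  choose c hc1 hc2 using hc
  haveI : Nonempty (Fin m × Bool) := ⟨(⟨0, hm⟩, false)⟩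
  have hspan : ⊤ ≤ Submodule.span ℝ (Set.range u) := by
    rw [hu.linearIndependent.span_eq_top_of_card_eq_finrank]
    rw [hfin]
    simp only [Fintype.card_prod, Fintype.card_fin, Fintype.card_bool]
    ring
  set e' : OrthonormalBasis (Fin m × Bool) ℝ V := OrthonormalBasis.mk hu hspan with he'
  have he : ∀ i, e' i = u i := fun i => by rw [he', OrthonormalBasis.coe_mk]
  -- the planes in use
  set S : Finset (Fin m) := univ.filter fun i => ∃ s, c s i ≠ 0 with hS
  have hmem : ∀ i ∈ S, ∀ t, u (i, t) ∈ W := by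
    intro i hi t
    rw [hS, Finset.mem_filter] at hi
    obtain ⟨s, hs⟩ := hi.2
    cases t
    · have h1 : u (i, false) = (-(c s i)⁻¹) • a s (u (i, true)) := by
        rw [hc2, smul_smul]
        have : -(c s i)⁻¹ * -(c s i) = 1 := by field_simp
        rw [this, one_smul]
      rw [h1]
      exact W.smul_mem _ (h.mem s _)
    · have h1 : u (i, true) = ((c s i)⁻¹) • a s (u (i, false)) := by
        rw [hc1, smul_smul, inv_mul_cancel₀ hs, one_smul]
      rw [h1]
      exact W.smul_mem _ (h.mem s _)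
  have hcard : S.card ≤ 4 := by
    have hli : LinearIndependent ℝ (fun p : S × Bool => (⟨u (p.1.1, p.2), hmem p.1.1 p.1.2 p.2⟩ :
        W)) := by
      have h1 : LinearIndependent ℝ (fun p : S × Bool => u (p.1.1, p.2)) :=
        hu.linearIndependent.comp (fun p : S × Bool => ((p.1.1, p.2) : Fin m × Bool)) (by
          rintro ⟨⟨i, hi⟩, s⟩ ⟨⟨j, hj⟩, t⟩ hij
          simp only [Prod.mk.injEq] at hij
          obtain ⟨h1, h2⟩ := hij
          subst h1; subst h2; rfl)
      exact LinearIndependent.of_comp W.subtype h1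
    have h2 := hli.fintype_card_le_finrank
    simp only [Fintype.card_prod, Fintype.card_coe, Fintype.card_bool] at h2
    omega
  have hSc : Fintype.card S ≤ Fintype.card (Fin 4) := by
    simpa using hcard
  obtain ⟨f⟩ := Function.Embedding.nonempty_of_card_le hSc
  set ι : Fin 4 → Fin m := Function.extend f (fun i => i.1) (fun _ => ⟨0, hm⟩) with hι
  set α : Fin n → Fin 4 → ℝ := fun s => Function.extend f (fun i : S => c s i.1) 0 with hα
  refine ⟨e', ι, α, fun s => ?_⟩
  have h1 : fA (α s) ι = ∑ k, ((α s k : ℝ) : ℂ) • eP (ι k) := by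
    rw [Fin.sum_univ_four]; rfl
  have h2 : ∑ k, ((α s k : ℝ) : ℂ) • eP (ι k) = ∑ i : S, ((c s i.1 : ℝ) : ℂ) • eP i.1 := by
    symm
    refine Fintype.sum_of_injective f f.injective _ _ ?_ ?_
    · intro k hk
      have : α s k = 0 := by
        simp only [hα]
        rw [Function.extend_apply' _ _ _ (fun ⟨i, hi⟩ => hk ⟨i, hi⟩)]
        rfl
      rw [this, Complex.ofReal_zero, zero_smul]
    · intro i
      have e1 : α s (f i) = c s i.1 := by simp only [hα]; rw [f.injective.extend_apply]
      have e2 : ι (f i) = i.1 := by simp only [hι]; rw [f.injective.extend_apply]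
      rw [e1, e2]
  have h3 : ∑ i : S, ((c s i.1 : ℝ) : ℂ) • eP i.1 = ∑ i, ((c s i : ℝ) : ℂ) • (eP i : Mt m) := by
    rw [Finset.sum_coe_sort S (fun i => ((c s i : ℝ) : ℂ) • (eP i : Mt m))]
    refine Finset.sum_subset (Finset.subset_univ S) fun i _ hi => ?_
    have : c s i = 0 := by
      by_contra hne
      exact hi (Finset.mem_filter.mpr ⟨Finset.mem_univ _, ⟨s, hne⟩⟩)
    rw [this, Complex.ofReal_zero, zero_smul]
  rw [h1, h2, h3]
  funext x y
  obtain ⟨i, p⟩ := x
  obtain ⟨j, q⟩ := y
  have ho := orthonormal_iff_ite.mp hu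
  simp only [cm, he, Finset.sum_apply, Pi.smul_apply, smul_eq_mul, eP, sk]
  rw [Finset.sum_eq_single i]
  · cases p
    · rw [hc1, inner_smul_left, ho]
      cases q
      · simp
      · by_cases hij : i = j
        · subst hij; simp
        · have : ¬ j = i := fun h => hij h.symm
          simp [hij, this]
    · rw [hc2, inner_smul_left, ho]
      cases q
      · by_cases hij : i = j
        · subst hij; simp
        · have : ¬ j = i := fun h => hij h.symm
          simp [hij, this]
      · simp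
  · intro b _ hb
    have : ¬ i = b := fun h => hb h.symm
    simp [this]
  · intro h; exact absurd (Finset.mem_univ i) h

/-- **Superadditivity.** -/
theorem super8 (e : OrthonormalBasis (Fin m × Bool) ℝ V) (hm : 1 ≤ m)
    {P : V → V → V → V → ℝ} (hP : AlgCurv P) (hPn : OpNonneg P) {W : Submodule ℝ V}
    (hW : Module.finrank ℝ W ≤ 8) {n : ℕ} {a : Fin n → V →ₗ[ℝ] V} (h : CommSkew W a) :
    0 ≤ gbc e (opCurv a) ∧ gbc e P + gbc e (opCurv a) ≤ gbc e (addT P (opCurv a)) := by
  obtain ⟨e', ι, α, hα⟩ := coeffs e hm hW h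
  have hT := h.curv
  rw [Pool.Agent.W688.HD.bas m V e e' _ hP, Pool.Agent.W688.HD.bas m V e e' _ hT,
    Pool.Agent.W688.HD.bas m V e e' _ (add_curv hP hT)]
  have hC : eL (cx (cp e' (opCurv a))) = (2 : ℂ) • ∑ s, qi (fA (α s) ι) := by
    have h1 : cx (cp e' (opCurv a)) = fun i j k l => ∑ s,
        cx (scR fun i j => (inner ℝ (a s (e' i)) (e' j) : ℝ)) i j k l := by
      funext i j k l
      simp only [cx, cp, opCurv, skewCurv, scR]
      push_cast
      rfl
    rw [h1, eL_sum (fun s i j k l => cx (scR fun i j => (inner ℝ (a s (e' i)) (e' j) : ℝ)) i j k l),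
      Finset.smul_sum]
    refine Finset.sum_congr rfl fun s _ => ?_
    rw [← hα s]
    exact eL_scR _
  have key : ∀ (N n : ℕ) (S : Zc (I2 m → ℂ)), Inv S → S ∈ cone m n → N + n = m →
      0 ≤ LR m (eL (cx (cp e' (opCurv a))) ^ N * S) := by
    intro N n' S hS hSc hn
    have h1 := all_pos' α ι hS hSc hn
    have e1 : ((2 : ℂ) • ∑ s, qi (fA (α s) ι)) ^ N * S =
        rS m (2 ^ N) * ((∑ s, qi (fA (α s) ι)) ^ N * S) := by
      rw [rS, map_pow, map_ofNat, Algebra.smul_def, map_ofNat, mul_pow]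
      ring
    rw [hC, e1, LR_rS]
    positivity
  obtain ⟨h1, h2⟩ := gm_super hm (adm_cp e' hP hPn) key
  rw [gbc_gm, gbc_gm, gbc_gm]
  have hπ := Real.pi_pos
  have hcc : 0 < 1 / ((8 * Real.pi) ^ m * (m.factorial : ℝ)) := by positivity
  refine ⟨mul_nonneg hcc.le h1, ?_⟩
  rw [← mul_add]
  exact mul_le_mul_of_nonneg_left h2 hcc.le

/-- The hypothesis: `-R = P + opCurv a`, where the curvature operator of the algebraic curvature
tensor `P` is at least `δ` and the `a s` are pairwise commuting skew-adjoint operators with images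
in a subspace of dimension at most eight. -/
def PlusComm (δ : ℝ) (R : V → V → V → V → ℝ) : Prop :=
  ∃ (W : Submodule ℝ V) (n : ℕ) (a : Fin n → V →ₗ[ℝ] V), Module.finrank ℝ W ≤ 8 ∧
    CommSkew W a ∧ OpNonneg (negT (addT (addT R fun x y z w => δ * unitT x y z w) (opCurv a)))

theorem comm_bound (e : OrthonormalBasis (Fin m × Bool) ℝ V) {R : V → V → V → V → ℝ}
    (hR : AlgCurv R) {δ : ℝ} (hδ : 0 ≤ δ) (h : PlusComm δ R) :
    roundGB m δ ≤ (-1) ^ m * gbc e R := by
  rcases Nat.eq_zero_or_pos m with hm | hm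
  · subst hm
    have h1 : gbc e R = 1 := by
      unfold gbc
      have : ∀ σ : Equiv.Perm (Fin 0 × Bool), Equiv.Perm.sign σ = 1 := fun σ => by
        have : σ = 1 := Subsingleton.elim _ _
        rw [this, Equiv.Perm.sign_one]
      simp [this]
    rw [h1]
    simp [roundGB]
  obtain ⟨W, n, a, hW, ha, hn⟩ := h
  have hT := ha.curv
  have hP : AlgCurv (negT (addT R (opCurv a))) := neg_curv (add_curv hR hT)
  have e1 : addT (negT (addT R (opCurv a))) (fun x y z w => -δ * unitT x y z w) =
      negT (addT (addT R fun x y z w => δ * unitT x y z w) (opCurv a)) := by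
    funext x y z w
    simp only [negT, addT]
    ring
  have h1 := op_bound e hP hδ (by rw [e1]; exact hn)
  have hPn : OpNonneg (negT (addT R (opCurv a))) := by
    intro k x y
    have h2 := hn k x y
    have h3 : 0 ≤ ∑ a, ∑ b, δ * unitT (x a) (y a) (x b) (y b) := by
      simp only [← Finset.mul_sum]
      exact mul_nonneg hδ (unit_op e k x y)
    have h4 : ∑ i, ∑ j, negT (addT R (opCurv a)) (x i) (y i) (x j) (y j) =
        ∑ i, ∑ j, negT (addT (addT R fun x y z w => δ * unitT x y z w) (opCurv a))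
          (x i) (y i) (x j) (y j) + ∑ i, ∑ j, δ * unitT (x i) (y i) (x j) (y j) := by
      simp only [← Finset.sum_add_distrib]
      refine Finset.sum_congr rfl fun i _ => Finset.sum_congr rfl fun j _ => ?_
      simp only [negT, addT]
      ring
    rw [h4]
    linarith
  obtain ⟨h5, h6⟩ := super8 e hm hP hPn hW ha
  have e2 : addT (negT (addT R (opCurv a))) (opCurv a) = negT R := by
    funext x y z w
    simp only [negT, addT]
    ring
  rw [e2] at h6
  have h7 : gbc e (negT R) = (-1) ^ m * gbc e R := by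
    have h8 := gbc_negT e (negT R)
    have h9 : negT (negT R) = R := by
      funext x y z w
      simp [negT]
    rw [h9] at h8
    exact h8.symm
  rw [← h7]
  linarith

theorem field_comm {M : Type} [MeasurableSpace M] (μ : MeasureTheory.Measure M)
    (K : CurvField m M) (δ : M → ℝ) (h : ∀ p, 0 ≤ δ p ∧ PlusComm (δ p) (K.R p)) :
    0 ≤ (-1) ^ m * ∫ p, K.gb p ∂μ ∧
    (MeasureTheory.Integrable K.gb μ → MeasureTheory.Integrable (fun p => roundGB m (δ p)) μ →
      ∫ p, roundGB m (δ p) ∂μ ≤ (-1) ^ m * ∫ p, K.gb p ∂μ) ∧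
    (MeasureTheory.Integrable K.gb μ → μ {p | 0 < δ p} ≠ 0 → 0 < (-1) ^ m * ∫ p, K.gb p ∂μ) := by
  have h1 : ∀ p, roundGB m (δ p) ≤ (-1) ^ m * K.gb p := fun p =>
    comm_bound (K.e p) (K.curv p) (h p).1 (h p).2
  have h0 : ∀ p, 0 ≤ (-1) ^ m * K.gb p := fun p => (roundGB_nonneg (h p).1).trans (h1 p)
  rw [← MeasureTheory.integral_const_mul]
  refine ⟨MeasureTheory.integral_nonneg h0, fun hi hr => ?_, fun hi hμ => ?_⟩
  · exact MeasureTheory.integral_mono hr (hi.const_mul _) h1
  · rw [MeasureTheory.integral_pos_iff_support_of_nonneg h0 (hi.const_mul _)]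
    refine lt_of_lt_of_le (pos_iff_ne_zero.mpr hμ) (MeasureTheory.measure_mono fun p hp => ?_)
    have h2 := roundGB_pos (m := m) (show 0 < δ p from hp)
    exact (h2.trans_le (h1 p)).ne'

end vector

end Pool.Agent.K1H57.HC
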