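import Pool.Agent.K1H57.HC.Deriv
import Pool.Agent.K1H57.HT.TauPos

/-!
# Positivity for commuting forms with four planes
-/

set_option autoImplicit false

namespace Pool.Agent.K1H57.HC

open Pool.Agent.Y195.HF Pool.Agent.K1H57.HT Finset

variable {m : ℕ}

/-- **Second order**: any six skew forms. -/
theorem pos2 {r : ℕ} (hr : r ≤ 6) (A : Fin r → Mt m) (hA : ∀ s i j, A s j i = - A s i j)
    (hAr : ∀ s, cj (A s) = A s) {T : Zc (I2 m → ℂ)} (hT : Inv T) {n : ℕ} (hTc : T ∈ cone m n)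
    (hn : 2 + n = m) : 0 ≤ LR m ((∑ s, qi (A s)) ^ 2 * T) := by
  set P : Fin r → Fin r → ℝ := fun s t => LR m (ff false false (A s) * ff false false (A t) *
    (ff true true (A s) * ff true true (A t)) * T) with hP
  set Q : Fin r → Fin r → ℝ := fun s t => LR m (ff false false (A t) * ff false false (A t) *
    (ff true true (A s) * ff true true (A s)) * T) with hQ
  have h1 : ∀ s t, LR m (qi (A s) * qi (A t) * T) = 9 / 4 * P s t - 3 / 8 * Q s t := by
    intro s t
    rw [LR_apply, LF_qq (hA s) (hA t) hT, hP, hQ]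
    simp only [LR_apply]
    have e1 : (9 / 4 : ℂ) = ((9 / 4 : ℝ) : ℂ) := by push_cast; ring
    have e2 : (3 / 8 : ℂ) = ((3 / 8 : ℝ) : ℂ) := by push_cast; ring
    rw [e1, e2, Complex.sub_re, Complex.re_ofReal_mul, Complex.re_ofReal_mul]
  have h2 : LR m ((∑ s, qi (A s)) ^ 2 * T) = ∑ s, ∑ t, (9 / 4 * P s t - 3 / 8 * Q s t) := by
    rw [sq, Finset.sum_mul_sum, Finset.sum_mul, map_sum]
    refine Finset.sum_congr rfl fun s _ => ?_
    rw [Finset.sum_mul, map_sum]
    exact Finset.sum_congr rfl fun t _ => h1 s t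
  have hP0 : ∀ s t, 0 ≤ P s t := by
    intro s t
    have h := gram (κ := Fin 1) (k := 2) (fun _ b => ![A s, A t] b) (fun _ b => by
      fin_cases b
      · exact hAr s
      · exact hAr t) (fun _ => 1) hTc hn
    simpa [Fin.prod_univ_two] using h
  have hPQ : ∀ s, P s s = Q s s := fun s => rfl
  have hsw : ∀ s t, Q s t + Q t s ≤ Q s s + Q t t := by
    intro s t
    have h := gram (κ := Fin 2) (k := 2) (fun a _ => ![A s, A t] a) (fun a _ => by
      fin_cases a
      · exact hAr s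
      · exact hAr t) ![1, -1] hTc hn
    simp only [Fin.sum_univ_two, Fin.prod_univ_two, Matrix.cons_val_zero, Matrix.cons_val_one,
      one_smul, neg_smul] at h
    have e : (ff false false (A s) * ff false false (A s) +
          -(ff false false (A t) * ff false false (A t))) *
        (ff true true (A s) * ff true true (A s) + -(ff true true (A t) * ff true true (A t))) * T =
        ff false false (A s) * ff false false (A s) * (ff true true (A s) * ff true true (A s)) * T +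
        ff false false (A t) * ff false false (A t) * (ff true true (A t) * ff true true (A t)) * T -
        ff false false (A t) * ff false false (A t) * (ff true true (A s) * ff true true (A s)) * T -
        ff false false (A s) * ff false false (A s) * (ff true true (A t) * ff true true (A t)) * T := by
      ring
    rw [e, map_sub, map_sub, map_add] at h
    simp only [hQ]
    linarith
  have h3 : ∑ s, ∑ t, Q s t ≤ r * ∑ s, Q s s := by
    have e1 : ∑ s, ∑ t, Q s t = ∑ s, ∑ t, Q t s := Finset.sum_comm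
    have e2 : ∑ s, ∑ t, (Q s t + Q t s) ≤ ∑ s, ∑ t : Fin r, (Q s s + Q t t) :=
      Finset.sum_le_sum fun s _ => Finset.sum_le_sum fun t _ => hsw s t
    simp only [Finset.sum_add_distrib, Finset.sum_const, Finset.card_univ, Fintype.card_fin,
      nsmul_eq_mul, ← Finset.mul_sum] at e2
    linarith
  have h4 : ∑ s, Q s s ≤ ∑ s, ∑ t, P s t := by
    refine Finset.sum_le_sum fun s _ => ?_
    rw [← hPQ s]
    exact Finset.single_le_sum (f := fun t => P s t) (fun t _ => hP0 s t) (Finset.mem_univ s)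
  have h5 : 0 ≤ ∑ s, Q s s := Finset.sum_nonneg fun s _ => by
    rw [← hPQ s]; exact hP0 s s
  have hr' : (r : ℝ) ≤ 6 := by exact_mod_cast hr
  rw [h2]
  simp only [Finset.sum_sub_distrib, ← Finset.mul_sum]
  nlinarith [mul_le_mul_of_nonneg_right hr' h5]

section planes

theorem act_p (i : Fin m) : ExteriorAlgebra.map (act m 2 0 0 (1 / 2)) (zval (pP i)) =
    zval ((4 : ℂ) • pP i) := by
  rw [map_pP]
  congr 1
  norm_num

theorem act_c (i : Fin m) : ExteriorAlgebra.map (act m 2 0 0 (1 / 2)) (zval (cP i)) =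
    zval ((1 / 4 : ℂ) • cP i) := by
  rw [map_cP]
  congr 1
  norm_num

theorem act_x (i : Fin m) : ExteriorAlgebra.map (act m 2 0 0 (1 / 2)) (zval (xP i)) =
    zval ((1 : ℂ) • xP i) := by
  have h := map_pc 2 0 0 (1 / 2) (A := eP i) (fun i j => sk_anti _ _ i j)
  rw [ff_ff, ff_tt, ff_ft] at h
  rw [h]
  congr 1
  norm_num

theorem wt {a b : ℂ} {y z T : Zc (I2 m → ℂ)} (hT : Inv T)
    (hy : ExteriorAlgebra.map (act m 2 0 0 (1 / 2)) (zval y) = zval (a • y))
    (hz : ExteriorAlgebra.map (act m 2 0 0 (1 / 2)) (zval z) = zval (b • z)) (hab : a * b ≠ 1) :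
    LF m (zval (y * z * T)) = 0 := by
  have hd : (2 : ℂ) * (1 / 2) - 0 * 0 = 1 := by norm_num
  have h1 := LF_act (m := m) hd (zval (y * z * T))
  have e : ExteriorAlgebra.map (act m 2 0 0 (1 / 2)) (zval (y * z * T)) =
      zval ((a * b) • (y * z * T)) := by
    rw [map_mul, map_mul, map_mul, map_mul, hy, hz, hT _ _ _ _ hd, ← map_mul, ← map_mul]
    congr 1
    simp only [Algebra.smul_def, map_mul]
    ring
  rw [e, map_smul, map_smul, smul_eq_mul] at h1
  have h2 : (a * b - 1) * LF m (zval (y * z * T)) = 0 := by linear_combination h1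
  exact (mul_eq_zero.mp h2).resolve_left (sub_ne_zero.mpr hab)

/-- the element of a real vector -/
noncomputable def yP (h : Fin 3 → ℝ) (i : Fin m) : Zc (I2 m → ℂ) := vv (h 0) (h 1) (h 2) (eP i)

theorem yP_eq (h : Fin 3 → ℝ) (i : Fin m) : yP h i = ((h 0 : ℂ) + Complex.I * h 1) • pP i +
    ((h 0 : ℂ) - Complex.I * h 1) • cP i + (Complex.I * h 2) • xP i := by
  rw [yP, vv, uu, ff_ff, ff_tt, ff_ft]
  have e : ∀ (a : ℂ) (z : Zc (I2 m → ℂ)), (a / 2) • (2 * z) = a • z := by
    intro a z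
    have : (2 : Zc (I2 m → ℂ)) * z = (2 : ℂ) • z := by rw [Algebra.smul_def, map_ofNat]
    rw [this, smul_smul]
    congr 1
    ring
  rw [e, e]

/-- squared length -/
def n2 (h : Fin 3 → ℝ) : ℝ := h 0 ^ 2 + h 1 ^ 2 + h 2 ^ 2

/-- inner product -/
def ip (h k : Fin 3 → ℝ) : ℝ := h 0 * k 0 + h 1 * k 1 + h 2 * k 2

theorem yP_sq (h : Fin 3 → ℝ) (i : Fin m) : yP h i * yP h i = rS m (2 * n2 h) * vP i := by
  have r := relP i
  have hI : algebraMap ℂ (Zc (I2 m → ℂ)) Complex.I * algebraMap ℂ (Zc (I2 m → ℂ)) Complex.I =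
      -1 := by
    rw [← map_mul, Complex.I_mul_I, map_neg, map_one]
  have e : rS m (2 * n2 h) = algebraMap ℂ (Zc (I2 m → ℂ)) ((2 * n2 h : ℝ) : ℂ) := by
    rw [rS, IsScalarTower.algebraMap_apply ℝ ℂ (Zc (I2 m → ℂ))]
    rfl
  rw [yP_eq, e, n2]
  simp only [Algebra.smul_def, map_mul, map_add, map_sub, Complex.ofReal_mul, Complex.ofReal_add,
    Complex.ofReal_pow, map_pow, Complex.ofReal_ofNat, map_ofNat]
  generalize algebraMap ℂ (Zc (I2 m → ℂ)) Complex.I = I at *
  generalize algebraMap ℂ (Zc (I2 m → ℂ)) (h 0 : ℂ) = a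
  generalize algebraMap ℂ (Zc (I2 m → ℂ)) (h 1 : ℂ) = b
  generalize algebraMap ℂ (Zc (I2 m → ℂ)) (h 2 : ℂ) = c
  linear_combination (a + I * b) ^ 2 * r.pp + (a - I * b) ^ 2 * r.cc +
    2 * (a + I * b) * (a - I * b) * r.pc + 2 * (a + I * b) * (I * c) * r.px +
    2 * (a - I * b) * (I * c) * r.cx + (I * c) ^ 2 * r.xx - 2 * vP i * (b ^ 2 + c ^ 2) * hI

theorem yP_cube (h : Fin 3 → ℝ) (i : Fin m) : yP h i * yP h i * yP h i = 0 := by
  rw [yP_sq, yP_eq]
  have r := relP i
  simp only [Algebra.smul_def]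
  linear_combination (rS m (2 * n2 h) * algebraMap ℂ (Zc (I2 m → ℂ)) ((h 0 : ℂ) + Complex.I * h 1)) *
    r.vp + (rS m (2 * n2 h) * algebraMap ℂ (Zc (I2 m → ℂ)) ((h 0 : ℂ) - Complex.I * h 1)) * r.vc +
    (rS m (2 * n2 h) * algebraMap ℂ (Zc (I2 m → ℂ)) (Complex.I * h 2)) * r.vx

theorem LF_sym {i j : Fin m} {T : Zc (I2 m → ℂ)} (hT : Inv T) :
    LF m (zval (xP i * xP j * T)) = - 2 * LF m (zval (pP i * cP j * T)) ∧
    LF m (zval (xP i * xP j * T)) = - 2 * LF m (zval (cP i * pP j * T)) := by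
  have s2 : ∀ z : Zc (I2 m → ℂ), LF m (zval (2 * z)) = 2 * LF m (zval z) := by
    intro z
    have : (2 : Zc (I2 m → ℂ)) * z = (2 : ℂ) • z := by rw [Algebra.smul_def, map_ofNat]
    rw [this, map_smul, map_smul, smul_eq_mul]
  have d1 := ((dv_psi (A := eP i) (fun i j => sk_anti _ _ i j)).mul
    (dv_x (A := eP j) (fun i j => sk_anti _ _ i j))).apply hT
  have d2 := ((dv_x (A := eP i) (fun i j => sk_anti _ _ i j)).mul
    (dv_psi (A := eP j) (fun i j => sk_anti _ _ i j))).apply hT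
  rw [ff_ff, ff_ft, ff_ft, ff_tt] at d1 d2
  have e1 : (2 * xP i * xP j + 2 * pP i * (2 * cP j)) * T = 2 * (xP i * xP j * T) +
      2 * (2 * (pP i * cP j * T)) := by ring
  have e2 : (2 * cP i * (2 * pP j) + xP i * (2 * xP j)) * T = 2 * (xP i * xP j * T) +
      2 * (2 * (cP i * pP j * T)) := by ring
  rw [e1, map_add, map_add, s2, s2, s2] at d1
  rw [e2, map_add, map_add, s2, s2, s2] at d2
  constructor
  · linear_combination (1 / 2 : ℂ) * d1
  · linear_combination (1 / 2 : ℂ) * d2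

theorem LR_yy (h k : Fin 3 → ℝ) {i j : Fin m} {T : Zc (I2 m → ℂ)} (hT : Inv T) :
    LR m (yP h i * yP k j * T) = 2 * ip h k * cV i j T := by
  have w1 := wt hT (act_p i) (act_p j) (by norm_num)
  have w2 := wt hT (act_c i) (act_c j) (by norm_num)
  have w3 := wt hT (act_p i) (act_x j) (by norm_num)
  have w4 := wt hT (act_x i) (act_p j) (by norm_num)
  have w5 := wt hT (act_c i) (act_x j) (by norm_num)
  have w6 := wt hT (act_x i) (act_c j) (by norm_num)
  obtain ⟨s1, s2⟩ := LF_sym (i := i) (j := j) hT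
  have e : yP h i * yP k j * T =
      (((h 0 : ℂ) + Complex.I * h 1) * ((k 0 : ℂ) + Complex.I * k 1)) • (pP i * pP j * T) +
      (((h 0 : ℂ) + Complex.I * h 1) * ((k 0 : ℂ) - Complex.I * k 1)) • (pP i * cP j * T) +
      (((h 0 : ℂ) + Complex.I * h 1) * (Complex.I * k 2)) • (pP i * xP j * T) +
      (((h 0 : ℂ) - Complex.I * h 1) * ((k 0 : ℂ) + Complex.I * k 1)) • (cP i * pP j * T) +
      (((h 0 : ℂ) - Complex.I * h 1) * ((k 0 : ℂ) - Complex.I * k 1)) • (cP i * cP j * T) +
      (((h 0 : ℂ) - Complex.I * h 1) * (Complex.I * k 2)) • (cP i * xP j * T) +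
      ((Complex.I * h 2) * ((k 0 : ℂ) + Complex.I * k 1)) • (xP i * pP j * T) +
      ((Complex.I * h 2) * ((k 0 : ℂ) - Complex.I * k 1)) • (xP i * cP j * T) +
      ((Complex.I * h 2) * (Complex.I * k 2)) • (xP i * xP j * T) := by
    rw [yP_eq, yP_eq]
    simp only [Algebra.smul_def, map_mul]
    ring
  have hI := Complex.I_mul_I
  have key : LF m (zval (yP h i * yP k j * T)) =
      ((2 * ip h k / 2 : ℝ) : ℂ) * LF m (zval ((pP i * cP j + cP i * pP j) * T)) := by
    rw [e]
    simp only [map_add, map_smul, w1, w2, w3, w4, w5, w6, smul_eq_mul, mul_zero, add_zero,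
      zero_add, add_mul]
    rw [ip]
    push_cast
    have s3 : LF m (zval (pP i * cP j * T)) = -(1 / 2) * LF m (zval (xP i * xP j * T)) := by
      linear_combination (1 / 2 : ℂ) * s1
    have s4 : LF m (zval (cP i * pP j * T)) = -(1 / 2) * LF m (zval (xP i * xP j * T)) := by
      linear_combination (1 / 2 : ℂ) * s2
    rw [s3, s4]
    linear_combination (LF m (zval (xP i * xP j * T)) * (h 2 * k 2 + h 1 * k 1)) * hI
  rw [LR_apply, key, Complex.re_ofReal_mul, ← LR_apply, cV]
  ring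

end planes

end Pool.Agent.K1H57.HC
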